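import Mathlib.Data.Fintype.Basic
import Mathlib.Order.SymmDiff
import Mathlib.Tactic

set_option autoImplicit false

/-!
# A finite additive poset which is not plain

The underlying group consists of the numbers `0, …, 15` with bitwise exclusive or as addition (so
it is isomorphic to `(ℤ/2)^4`). The order is generated by `0 ≤ v` for all `v` and the six relations
`10, 15 ≤ 5`, `11, 12 ≤ 7`, `13, 14 ≤ 3`.
-/

namespace Pool.Agent.Results.MP_3cee42_co.NotPlain

/-- The two axioms of an additive poset. -/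
def IsAdditivePoset (A : Type) [AddCommGroup A] [PartialOrder A] : Prop :=
  (∀ a b c : A, b ≤ a → c ≤ a → b + c ≤ a) ∧ (∀ a b c : A, a ≤ b → a ≤ c → a ≤ a + b + c)

/-- `A` embeds in the additive powerset `2^I` of a finite set `I`: there is an injective group
homomorphism `φ : A → 2^I` (addition of `2^I` is the symmetric difference) with
`a ≤ b ↔ φ a ⊆ φ b`. -/
def IsPlain (A : Type) [AddCommGroup A] [PartialOrder A] : Prop :=
  ∃ (I : Type) (_ : Finite I) (φ : A → Set I), Function.Injective φ ∧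
    (∀ a b : A, φ (a + b) = symmDiff (φ a) (φ b)) ∧ (∀ a b : A, a ≤ b ↔ φ a ⊆ φ b)

/-- bitwise exclusive or on the numbers `0, …, 15` -/
def xor (a b : Fin 16) : Fin 16 :=
  ⟨a.val ^^^ b.val, Nat.xor_lt_two_pow (n := 4) a.isLt b.isLt⟩

/-- the nontrivial relations -/
def rel : List (ℕ × ℕ) := [(10, 5), (15, 5), (11, 7), (12, 7), (13, 3), (14, 3)]

/-- the order relation: `0 ≤ a`, `a ≤ a`, and the relations above -/
def leRel (a b : Fin 16) : Prop := a.val = 0 ∨ a = b ∨ (a.val, b.val) ∈ rel

instance : DecidableRel leRel := fun _ _ => by unfold leRel; infer_instance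

theorem leRel_trans : ∀ a b c : Fin 16, leRel a b → leRel b c → leRel a c := by decide +kernel

theorem leRel_antisymm : ∀ a b : Fin 16, leRel a b → leRel b a → a = b := by decide +kernel

theorem axiom1 : ∀ a b c : Fin 16, leRel b a → leRel c a → leRel (xor b c) a := by
  decide +kernel

theorem axiom2 : ∀ a b c : Fin 16, leRel a b → leRel a c → leRel a (xor (xor a b) c) := by
  decide +kernel

/-- the numbers `0, …, 15`, with exclusive or as addition and with the order `leRel` -/
@[ext] structure V where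
  /-- the number of the element -/
  num : Fin 16
deriving DecidableEq

/-- the element with number `n` -/
def el (n : Fin 16) : V := ⟨n⟩

instance : Finite V :=
  Finite.of_injective V.num (fun a b h => V.ext h)

instance : Zero V := ⟨⟨0⟩⟩
instance : Add V := ⟨fun a b => ⟨xor a.num b.num⟩⟩
instance : Neg V := ⟨fun a => a⟩

theorem add_num (a b : V) : (a + b).num = xor a.num b.num := rfl
theorem zero_num : (0 : V).num = 0 := rfl
theorem neg_num (a : V) : (-a).num = a.num := rfl

theorem xor_assoc' (a b c : Fin 16) : xor (xor a b) c = xor a (xor b c) :=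
  Fin.ext (Nat.xor_assoc a.val b.val c.val)
theorem xor_comm' (a b : Fin 16) : xor a b = xor b a :=
  Fin.ext (Nat.xor_comm a.val b.val)
theorem zero_xor' (a : Fin 16) : xor 0 a = a :=
  Fin.ext (Nat.zero_xor a.val)
theorem xor_self' (a : Fin 16) : xor a a = 0 :=
  Fin.ext (Nat.xor_self a.val)

instance : AddCommGroup V where
  add_assoc a b c := V.ext (by simp only [add_num]; exact xor_assoc' _ _ _)
  zero_add a := V.ext (by simp only [add_num, zero_num]; exact zero_xor' _)
  add_zero a := V.ext (by simp only [add_num, zero_num]; rw [xor_comm']; exact zero_xor' _)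
  nsmul := nsmulRec
  zsmul := zsmulRec
  neg_add_cancel a := V.ext (by simp only [add_num, zero_num, neg_num]; exact xor_self' _)
  add_comm a b := V.ext (by simp only [add_num]; exact xor_comm' _ _)

instance : PartialOrder V where
  le a b := leRel a.num b.num
  le_refl a := Or.inr (Or.inl rfl)
  le_trans a b c := leRel_trans a.num b.num c.num
  le_antisymm a b h k := V.ext (leRel_antisymm a.num b.num h k)

theorem le_iff (a b : V) : a ≤ b ↔ leRel a.num b.num := Iff.rfl

/-- the propositional core of the argument: `pn` says that a fixed coordinate is in the image of the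
element with number `n` -/
theorem contradiction_of (p1 p2 p3 p4 p5 p7 p8 p10 p12 p13 : Prop) (h1 : p1) (hn3 : ¬ p3)
    (h3 : p3 ↔ ((p1 ∧ ¬ p2) ∨ (p2 ∧ ¬ p1))) (h5 : p5 ↔ ((p1 ∧ ¬ p4) ∨ (p4 ∧ ¬ p1)))
    (h7 : p7 ↔ ((p3 ∧ ¬ p4) ∨ (p4 ∧ ¬ p3))) (h10 : p10 ↔ ((p2 ∧ ¬ p8) ∨ (p8 ∧ ¬ p2)))
    (h12 : p12 ↔ ((p4 ∧ ¬ p8) ∨ (p8 ∧ ¬ p4))) (h13 : p13 ↔ ((p12 ∧ ¬ p1) ∨ (p1 ∧ ¬ p12)))
    (r10 : p10 → p5) (r12 : p12 → p7) (r13 : p13 → p3) : False := by
  have q2 : p2 := by_contra fun h => hn3 (h3.mpr (Or.inl ⟨h1, h⟩))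
  have q12 : p12 := by_contra fun h => hn3 (r13 (h13.mpr (Or.inr ⟨h1, h⟩)))
  have q4 : p4 := by
    rcases h7.mp (r12 q12) with h | h
    · exact absurd h.1 hn3
    · exact h.1
  have q8 : ¬ p8 := by
    rcases h12.mp q12 with h | h
    · exact h.2
    · exact absurd q4 h.2
  rcases h5.mp (r10 (h10.mpr (Or.inl ⟨q2, q8⟩))) with h | h
  · exact h.2 q4
  · exact h.2 h1

/-- There is a finite additive poset (with 16 elements) which is not plain. -/
theorem result : ∃ (A : Type) (_ : AddCommGroup A) (_ : PartialOrder A),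
    Finite A ∧ IsAdditivePoset A ∧ ¬ IsPlain A := by
  refine ⟨V, inferInstance, inferInstance, inferInstance, 
    ⟨fun a b c => axiom1 a.num b.num c.num, fun a b c => axiom2 a.num b.num c.num⟩, ?_⟩
  rintro ⟨I, _, φ, -, hadd, hle⟩
  have hn : ¬ φ (el 1) ⊆ φ (el 3) := by
    rw [← hle]
    show ¬ leRel 1 3
    decide
  obtain ⟨i, hi1, hi3⟩ := Set.not_subset.mp hn
  have hxor : ∀ a b c : V, a + b = c →
      (i ∈ φ c ↔ ((i ∈ φ a ∧ i ∉ φ b) ∨ (i ∈ φ b ∧ i ∉ φ a))) := by
    rintro a b _ rfl
    rw [hadd, Set.mem_symmDiff]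
  have h3 := hxor (el 1) (el 2) (el 3) (by decide)
  have h5 := hxor (el 1) (el 4) (el 5) (by decide)
  have h7 := hxor (el 3) (el 4) (el 7) (by decide)
  have h10 := hxor (el 2) (el 8) (el 10) (by decide)
  have h12 := hxor (el 4) (el 8) (el 12) (by decide)
  have h13 := hxor (el 12) (el 1) (el 13) (by decide)
  have r10 : i ∈ φ (el 10) → i ∈ φ (el 5) :=
    fun h => (hle (el 10) (el 5)).mp (show leRel 10 5 by decide) h
  have r12 : i ∈ φ (el 12) → i ∈ φ (el 7) :=
    fun h => (hle (el 12) (el 7)).mp (show leRel 12 7 by decide) h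
  have r13 : i ∈ φ (el 13) → i ∈ φ (el 3) :=
    fun h => (hle (el 13) (el 3)).mp (show leRel 13 3 by decide) h
  exact contradiction_of _ _ _ _ _ _ _ _ _ _ hi1 hi3 h3 h5 h7 h10 h12 h13 r10 r12 r13

end Pool.Agent.Results.MP_3cee42_co.NotPlain
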